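import Pool.Agent.Q260.OE.Stm
import Mathlib.Analysis.Fourier.RiemannLebesgueLemma

set_option autoImplicit false

/-!
# Project OE, job MOD: asymptotic orthogonality of the model
-/

namespace Pool.Agent.Q137.OE

open Complex MeasureTheory Filter Topology Set
open Pool.Agent.Q286.BD (cl)
open Pool.Agent.Q260.OE

/-- Riemann-Lebesgue on an interval -/
lemma rl (p : ℝ → ℂ) {u v : ℝ} (huv : u ≤ v) {c : ℝ} (hc : c ≠ 0) :
    Tendsto (fun L : ℝ => ∫ x in u..v, p x * cexp (((L * x * c : ℝ) : ℂ) * I)) atTop (𝓝 0) := by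
  have h := Real.tendsto_integral_exp_smul_cocompact (E := ℂ) ((Ioc u v).indicator p)
  have ht : Tendsto (fun L : ℝ => -(L * c) / (2 * Real.pi)) atTop (cocompact ℝ) := by
    rw [← Metric.cobounded_eq_cocompact, ← tendsto_norm_atTop_iff_cobounded]
    have h1 : (fun L : ℝ => ‖-(L * c) / (2 * Real.pi)‖) = fun L : ℝ => |L| * (|c| / (2 * Real.pi)) := by
      funext L
      rw [norm_div, norm_neg, norm_mul, Real.norm_eq_abs, Real.norm_eq_abs, Real.norm_eq_abs,
        abs_of_pos (by positivity : (0 : ℝ) < 2 * Real.pi)]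
      ring
    rw [h1]
    have hpos : 0 < |c| / (2 * Real.pi) := by positivity
    exact Tendsto.atTop_mul_const hpos tendsto_abs_atTop_atTop
  have h2 := h.comp ht
  refine h2.congr fun L => ?_
  simp only [Function.comp]
  rw [intervalIntegral.integral_of_le huv, ← integral_indicator measurableSet_Ioc]
  refine integral_congr_ae (Filter.Eventually.of_forall fun x => ?_)
  simp only
  by_cases hx : x ∈ Ioc u v
  · rw [indicator_of_mem hx, indicator_of_mem hx, Circle.smul_def, Real.fourierChar_apply, smul_eq_mul,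
      mul_comm]
    congr 2
    push_cast
    field_simp
  · rw [indicator_of_notMem hx, indicator_of_notMem hx, smul_zero]

lemma cl_sq (g : ℝ) : cl g * (starRingEnd ℂ) (cl g) = ((1 / 4 + g ^ 2 : ℝ) : ℂ) := by
  rw [Complex.mul_conj]
  congr 1
  simp only [cl, Complex.normSq_apply]
  simp
  ring

lemma cl_ne (g : ℝ) : cl g ≠ 0 := by
  intro h
  have := congrArg Complex.re h
  simp [cl] at this

/-- the square, expanded -/
lemma expand (S : Finset ℝ) (q : ℝ → Polynomial ℝ) (L x : ℝ) :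
    ((‖∑ g ∈ S, (((q g).eval x : ℝ) : ℂ) * cexp (((x * L : ℝ) : ℂ) * cl g) / cl g‖ ^ 2 *
      Real.exp (-(x * L)) : ℝ) : ℂ) =
    ∑ g ∈ S, ∑ h ∈ S, 1 / (cl g * (starRingEnd ℂ) (cl h)) *
      (((((q g).eval x * (q h).eval x : ℝ) : ℂ)) * cexp (((L * x * (g - h) : ℝ) : ℂ) * I)) := by
  rw [Complex.ofReal_mul, Complex.ofReal_pow, ← Complex.mul_conj', map_sum, Finset.sum_mul_sum,
    Finset.sum_mul]
  refine Finset.sum_congr rfl fun g _ => ?_
  rw [Finset.sum_mul]
  refine Finset.sum_congr rfl fun h _ => ?_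
  rw [map_div₀, map_mul, Complex.conj_ofReal, ← Complex.exp_conj, map_mul, Complex.conj_ofReal]
  have e : cexp (((x * L : ℝ) : ℂ) * cl g) * cexp (((x * L : ℝ) : ℂ) * (starRingEnd ℂ) (cl h)) *
      ((Real.exp (-(x * L)) : ℝ) : ℂ) = cexp (((L * x * (g - h) : ℝ) : ℂ) * I) := by
    rw [Complex.ofReal_exp, ← Complex.exp_add, ← Complex.exp_add]
    congr 1
    simp only [cl, map_add, map_mul, Complex.conj_ofReal, Complex.conj_I, map_div₀, map_one, map_ofNat]
    push_cast
    ring
  rw [← e]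
  have h1 := cl_ne g
  have h2 : (starRingEnd ℂ) (cl h) ≠ 0 := by
    rw [Ne, map_eq_zero]
    exact cl_ne h
  push_cast
  field_simp

/-- **Asymptotic orthogonality of the model.** -/
theorem t_MOD : S_MOD := by
  intro S q u v huv
  -- the limit, as a complex number
  have key : Tendsto (fun L : ℝ => ∑ g ∈ S, ∑ h ∈ S, 1 / (cl g * (starRingEnd ℂ) (cl h)) *
      ∫ x in u..v, (((((q g).eval x * (q h).eval x : ℝ) : ℂ)) * cexp (((L * x * (g - h) : ℝ) : ℂ) * I)))
      atTop (𝓝 (∑ g ∈ S, ∑ h ∈ S, if g = h then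
        (((∫ x in u..v, (q g).eval x ^ 2) / (1 / 4 + g ^ 2) : ℝ) : ℂ) else 0)) := by
    refine tendsto_finsetSum _ fun g _ => tendsto_finsetSum _ fun h _ => ?_
    by_cases hgh : g = h
    · subst hgh
      rw [if_pos rfl]
      refine tendsto_const_nhds.congr fun L => ?_
      have e1 : ∀ x : ℝ, (((((q g).eval x * (q g).eval x : ℝ) : ℂ)) *
          cexp (((L * x * (g - g) : ℝ) : ℂ) * I)) = (((q g).eval x ^ 2 : ℝ) : ℂ) := by
        intro x
        rw [sub_self, mul_zero, Complex.ofReal_zero, zero_mul, Complex.exp_zero, mul_one, sq]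
      simp only [e1]
      rw [intervalIntegral.integral_ofReal, cl_sq]
      push_cast
      ring
    · rw [if_neg hgh]
      have h1 := (rl (fun x => ((((q g).eval x * (q h).eval x : ℝ) : ℂ))) huv (sub_ne_zero.mpr hgh)).const_mul
        (1 / (cl g * (starRingEnd ℂ) (cl h)))
      rw [mul_zero] at h1
      exact h1
  have key2 := (Complex.continuous_re.tendsto _).comp key
  have hlim : (∑ g ∈ S, ∑ h ∈ S, if g = h then
        (((∫ x in u..v, (q g).eval x ^ 2) / (1 / 4 + g ^ 2) : ℝ) : ℂ) else 0).re =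
      ∑ g ∈ S, (∫ x in u..v, (q g).eval x ^ 2) / (1 / 4 + g ^ 2) := by
    rw [Complex.re_sum]
    refine Finset.sum_congr rfl fun g hg => ?_
    rw [Finset.sum_ite_eq, if_pos hg, Complex.ofReal_re]
  rw [hlim] at key2
  refine key2.congr' ?_
  filter_upwards [eventually_gt_atTop (0 : ℝ)] with L hL
  simp only [Function.comp]
  -- substitution
  have hsub := intervalIntegral.integral_comp_mul_right (a := u) (b := v) (fun w : ℝ =>
    ‖∑ g ∈ S, (((q g).eval (w / L) : ℝ) : ℂ) * cexp (w * cl g) / cl g‖ ^ 2 * Real.exp (-w)) hL.ne'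
  rw [smul_eq_mul] at hsub
  rw [one_div, ← hsub]
  have e2 : ∀ x : ℝ, ‖∑ g ∈ S, (((q g).eval (x * L / L) : ℝ) : ℂ) * cexp (((x * L : ℝ) : ℂ) * cl g) / cl g‖ ^ 2 *
      Real.exp (-(x * L)) = ‖∑ g ∈ S, (((q g).eval x : ℝ) : ℂ) * cexp (((x * L : ℝ) : ℂ) * cl g) / cl g‖ ^ 2 *
      Real.exp (-(x * L)) := by
    intro x
    rw [mul_div_assoc, div_self hL.ne', mul_one]
  simp only [e2]
  have e3 : ((∫ x in u..v, ‖∑ g ∈ S, (((q g).eval x : ℝ) : ℂ) * cexp (((x * L : ℝ) : ℂ) * cl g) / cl g‖ ^ 2 *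
      Real.exp (-(x * L)) : ℝ) : ℂ) = ∑ g ∈ S, ∑ h ∈ S, 1 / (cl g * (starRingEnd ℂ) (cl h)) *
      ∫ x in u..v, (((((q g).eval x * (q h).eval x : ℝ) : ℂ)) * cexp (((L * x * (g - h) : ℝ) : ℂ) * I)) := by
    rw [← intervalIntegral.integral_ofReal]
    simp only [expand]
    rw [intervalIntegral.integral_finsetSum]
    · refine Finset.sum_congr rfl fun g _ => ?_
      rw [intervalIntegral.integral_finsetSum]
      · refine Finset.sum_congr rfl fun h _ => ?_
        rw [intervalIntegral.integral_const_mul]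
      · intro h _
        apply Continuous.intervalIntegrable
        fun_prop
    · intro g _
      apply Continuous.intervalIntegrable
      fun_prop
  rw [← e3, Complex.ofReal_re]

end Pool.Agent.Q137.OE
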